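import Mathlib
import Pool.Agent.H381R4.CM.Stubs

/-! Final assembly for MP_a34d76_pr: translation of the symmetric convex body to the origin. -/

set_option autoImplicit false
open MeasureTheory Matrix Filter Topology
open scoped ENNReal BigOperators Pointwise

namespace Pool.Agent.H381CM

theorem cmfin_interior {d : ℕ} (C : Set (V d)) (hC : Convex ℝ C) (c : V d)
    (hc : ∀ x ∈ C, (2 : ℝ) • c - x ∈ C) (hi : (interior C).Nonempty) : c ∈ interior C := by
  obtain ⟨a, ha⟩ := hi
  have h2 : (2 : ℝ) • c - a ∈ interior C := by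
    have hpre : (Homeomorph.subLeft ((2 : ℝ) • c)) ⁻¹' C = C := by
      ext x
      constructor
      · intro hx
        have hx' : (2 : ℝ) • c - x ∈ C := hx
        have := hc _ hx'
        rwa [sub_sub_cancel] at this
      · intro hx
        exact hc x hx
    have h3 := (Homeomorph.subLeft ((2 : ℝ) • c)).preimage_interior C
    rw [hpre] at h3
    have h4 : a ∈ (Homeomorph.subLeft ((2 : ℝ) • c)) ⁻¹' interior C := by
      rw [h3]
      exact ha
    exact h4
  have h5 := hC.interior ha h2 (a := (1 / 2 : ℝ)) (b := (1 / 2 : ℝ)) (by norm_num) (by norm_num)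
    (by norm_num)
  have h6 : (1 / 2 : ℝ) • a + (1 / 2 : ℝ) • ((2 : ℝ) • c - a) = c := by
    rw [smul_sub, smul_smul]
    norm_num
  rwa [h6] at h5

theorem T_FIN (h1 : S_SYM) (h2 : S_BDD) : S_FIN := by
  intro d C hC hpos hfin hsym n hn
  obtain ⟨c, hc⟩ := hsym
  obtain ⟨hb, hi⟩ := h2 d C hC hpos hfin
  have hci := cmfin_interior C hC c hc hi
  let e : V d ≃ᵐ V d := MeasurableEquiv.addRight c
  let C0 : Set (V d) := (fun x => x + c) ⁻¹' C
  have hC0 : Convex ℝ C0 := hC.translate_preimage_left c
  have hb0 : Bornology.IsBounded C0 := by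
    rw [Metric.isBounded_iff_subset_closedBall 0] at hb ⊢
    obtain ⟨r, hr⟩ := hb
    refine ⟨r + ‖c‖, ?_⟩
    intro x hx
    have h3 := hr hx
    rw [mem_closedBall_zero_iff] at h3 ⊢
    calc ‖x‖ = ‖(x + c) - c‖ := by rw [add_sub_cancel_right]
      _ ≤ ‖x + c‖ + ‖c‖ := norm_sub_le _ _
      _ ≤ r + ‖c‖ := by
        have : ‖x + c‖ ≤ r := h3
        linarith
  have hi0 : (0 : V d) ∈ interior C0 := by
    have h3 : (Homeomorph.addRight c) ⁻¹' interior C = interior ((Homeomorph.addRight c) ⁻¹' C) :=
      (Homeomorph.addRight c).preimage_interior C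
    have h4 : (0 : V d) ∈ (Homeomorph.addRight c) ⁻¹' interior C := by
      show (0 : V d) + c ∈ interior C
      rwa [zero_add]
    rw [h3] at h4
    exact h4
  have hs0 : ∀ x ∈ C0, -x ∈ C0 := by
    intro x hx
    have h3 : (2 : ℝ) • c - (x + c) ∈ C := hc _ hx
    show -x + c ∈ C
    have h4 : (2 : ℝ) • c - (x + c) = -x + c := by
      rw [two_smul]
      abel
    rwa [h4] at h3
  obtain ⟨P0, hP0, hmar, hsum⟩ := h1 d n hn C0 hC0 hb0 hi0 hs0
  have hT : Measurable (fun (x : Fin n → V d) (i : Fin n) => x i + c) := by
    apply measurable_pi_lambda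
    intro i
    have h3 : Measurable (fun x : Fin n → V d => x i) := measurable_pi_apply i
    exact h3.add_const c
  refine ⟨P0.map (fun (x : Fin n → V d) (i : Fin n) => x i + c), ?_, ?_, ?_⟩
  · exact Measure.isProbabilityMeasure_map hT.aemeasurable
  · intro i
    rw [Measure.map_map (measurable_pi_apply i) hT]
    have h3 : ((fun x : Fin n → (Fin d → ℝ) => x i) ∘
        (fun (x : Fin n → V d) (i : Fin n) => x i + c)) =
        (fun y : V d => y + c) ∘ (fun x : Fin n → V d => x i) := rfl
    have hm1 : Measurable (fun y : V d => y + c) := measurable_id.add_const c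
    have hm2 : Measurable (fun x : Fin n → V d => x i) := measurable_pi_apply i
    rw [h3, ← Measure.map_map hm1 hm2, hmar i]
    unfold unif
    rw [Measure.map_smul]
    have hvol : volume C0 = volume C := measure_preimage_add_right volume c C
    have h4 : (volume.restrict C0).map (fun y : V d => y + c) = volume.restrict C := by
      have h5 : (volume.restrict (e ⁻¹' C)).map e = (volume.map e).restrict C :=
        (e.restrict_map volume C).symm
      have h6 : (volume : Measure (V d)).map e = volume :=
        (measurePreserving_add_right volume c).map_eq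
      rw [h6] at h5
      exact h5
    rw [hvol, h4]
  · refine ⟨n • c, ?_⟩
    rw [ae_map_iff hT.aemeasurable]
    · filter_upwards [hsum] with x hx
      rw [Finset.sum_add_distrib, hx, zero_add, Finset.sum_const, Finset.card_univ,
        Fintype.card_fin]
    · apply measurableSet_eq_fun
      · exact Finset.measurable_sum _ (fun i _ => measurable_pi_apply i)
      · exact measurable_const

end Pool.Agent.H381CM
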